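import Pool.Agent.Y177.NV.Filta
import Pool.Agent.Y63.NV.Stm5

/-!
# Project NV, part 5: one step of the filtration for the operator `K`

Adaptation of `Pool.Agent.Y177.NV.Filta`.
-/

set_option autoImplicit false

open scoped Classical Pointwise

noncomputable section

namespace Pool.Agent.Y748.NV

open Pool.Agent.Y63.NV Pool.Agent.Y177.NV

theorem Kfun_mem {F : Type} [Field F] {Γ : Type} [Group Γ] {z θ : Γ → F} {S : Set Γ}
    {J : Subgroup Γ}
    (hS : ∀ j ∈ J, ∀ x ∈ S, j * x * j⁻¹ ∈ S) (hz : ∀ j ∈ J, ∀ x, z (j * x * j⁻¹) = z x)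
    (hθ : ∀ j ∈ J, ∀ x, θ (j * x * j⁻¹) = θ x) : Kfun z S θ ∈ VS S J := by
  refine ⟨fun x hx => by simp [Kfun, hx], fun j hj x => ?_⟩
  by_cases hx : x ∈ S
  · have hx' := hS j hj x hx
    simp only [Kfun, hx, hx', if_true]
    rw [← finsum_comp_equiv (MulAut.conj j).toEquiv]
    refine finsum_congr fun g => ?_
    show z (j * g * j⁻¹) * θ (j * g * j⁻¹ * (j * x * j⁻¹)) = _
    rw [hz j hj, show j * g * j⁻¹ * (j * x * j⁻¹) = j * (g * x) * j⁻¹ by group, hθ j hj]
  · have hx' : j * x * j⁻¹ ∉ S := fun h => hx ((conj_mem_iff hS hj x).1 h)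
    simp [Kfun, hx, hx']

/-- one step of the filtration by the Sylow `p`-subgroups of the centralisers -/
theorem kfilta : S_KFILTA := by
  intro p _ F _ _ _ Γ _ _ H z c hzH hsupp R hR hRH
  set J := H ⊓ Subgroup.normalizer (R : Set Γ) with hJ
  set S := SA p J R with hS
  have hJH : J ≤ H := inf_le_left
  have hRJ : R ≤ J := le_inf hRH Subgroup.le_normalizer
  -- membership
  have hSJ : ∀ j ∈ J, ∀ x ∈ S, j * x * j⁻¹ ∈ S := by
    rintro j hj x ⟨h1, h3, h4⟩
    refine ⟨J.mul_mem (J.mul_mem hj h1) (J.inv_mem hj), fun r hr => ?_, ?_⟩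
    · have h5 : j⁻¹ * r * j ∈ R := by
        have := (Subgroup.mem_normalizer_iff''.1 (Subgroup.mem_inf.1 hj).2 r).1 hr
        exact this
      have h6 := h3 _ h5
      calc r * (j * x * j⁻¹) = j * (j⁻¹ * r * j * x) * j⁻¹ := by group
        _ = j * (x * (j⁻¹ * r * j)) * j⁻¹ := by rw [h6]
        _ = j * x * j⁻¹ * r := by group
    · rw [card_conj hj]; exact h4
  have hSC : ∀ h ∈ H, ∀ x ∈ SCA p H R, h * x * h⁻¹ ∈ SCA p H R := by
    rintro h hh x ⟨k, hk, hkx⟩
    refine ⟨k * h⁻¹, H.mul_mem hk (H.inv_mem hh), ?_⟩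
    have h1 : k * h⁻¹ * (h * x * h⁻¹) * (k * h⁻¹)⁻¹ = k * x * k⁻¹ := by group
    rw [h1]
    exact hkx
  have hSSC : S ⊆ SCA p H R := fun x hx => ⟨1, H.one_mem, by simpa using hx⟩
  have hcard : ∀ x ∈ S, (Nat.card ↥(H ⊓ Subgroup.centralizer ({x} : Set Γ))).factorization p =
      (Nat.card R).factorization p := fun x hx => card_cent hR hRH hx.2.1 hx.2.2
  have hfus : ∀ x ∈ S, ∀ h ∈ H, h * x * h⁻¹ ∈ S → ∃ j ∈ J, h * x * h⁻¹ = j * x * j⁻¹ :=
    fun x hx h hh hx' => conj_of_conj hR hRH hh rfl hx.2.1 hx'.2.1 (hcard _ hx')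
  -- the elements of `SCA` which centralise `R` are in `S`
  have hback : ∀ y ∈ H, (∀ r ∈ R, r * y = y * r) → y ∈ SCA p H R → y ∈ S := by
    rintro y hyN hyR ⟨h, hh, hy⟩
    refine ⟨Subgroup.mem_inf.2 ⟨hyN, ?_⟩, hyR, ?_⟩
    · rw [Subgroup.mem_normalizer_iff]
      intro r
      constructor
      · intro hr
        have h1 : y * r * y⁻¹ = r := by
          rw [← hyR r hr]; group
        rwa [h1]
      · intro hr
        have h1 := hyR _ hr
        have h2 : y * r * y⁻¹ = r := by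
          have h3 : y * r = y * (y * r * y⁻¹) := by
            calc y * r = y * r * y⁻¹ * y := by group
              _ = y * (y * r * y⁻¹) := h1
          have h4 : r = y * r * y⁻¹ := mul_left_cancel h3
          exact h4.symm
        rwa [h2] at hr
    · refine le_antisymm ?_ ?_
      · have h1 := hcard _ hy
        rw [card_conj hh] at h1
        rw [← h1]
        exact (Nat.factorization_le_iff_dvd Nat.card_pos.ne' Nat.card_pos.ne').2
          (Subgroup.card_dvd_of_le (inf_le_inf_right _ hJH)) p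
      · exact (Nat.factorization_le_iff_dvd Nat.card_pos.ne' Nat.card_pos.ne').2
          (Subgroup.card_dvd_of_le (le_inf hRJ fun r hr => mem_cent.2 (hyR r hr))) p
  have hcent : ∀ j ∈ J, ∀ x, j * x * j⁻¹ ∈ Subgroup.centralizer (R : Set Γ) ↔
      x ∈ Subgroup.centralizer (R : Set Γ) := by
    have h1 : ∀ j ∈ J, ∀ x ∈ (Subgroup.centralizer (R : Set Γ) : Set Γ),
        j * x * j⁻¹ ∈ (Subgroup.centralizer (R : Set Γ) : Set Γ) := by
      intro j hj x hx
      rw [SetLike.mem_coe, Subgroup.mem_centralizer_iff] at hx ⊢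
      intro r hr
      have h5 : j⁻¹ * r * j ∈ R :=
        (Subgroup.mem_normalizer_iff''.1 (Subgroup.mem_inf.1 hj).2 r).1 hr
      have h6 := hx _ h5
      calc r * (j * x * j⁻¹) = j * (j⁻¹ * r * j * x) * j⁻¹ := by group
        _ = j * (x * (j⁻¹ * r * j)) * j⁻¹ := by rw [h6]
        _ = j * x * j⁻¹ * r := by group
    intro j hj x
    exact conj_mem_iff h1 hj x
  have hcutJ : ∀ j ∈ J, ∀ x, cut z (Subgroup.centralizer (R : Set Γ)) (j * x * j⁻¹) =
      cut z (Subgroup.centralizer (R : Set Γ)) x := by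
    intro j hj x
    simp only [cut, hcent j hj x, hzH j (hJH hj) x]
  refine finrank_eq (Kop z (SCA p H R)) (Kop (cut z (Subgroup.centralizer (R : Set Γ))) S)
    (res S) (VS (SCA p H R) H) (VS S J) ?_ ?_ ?_ ?_ ?_ c
  · intro θ hθ
    exact Kfun_mem hSC hzH hθ.2
  · intro θ hθ
    refine ⟨fun x hx => by rw [res_apply, if_neg hx], fun j hj x => ?_⟩
    exact res_conj hSJ (fun j hj => hθ.2 j (hJH hj)) hj x
  · -- extension
    intro η hη
    have hval : ∀ x h₁ h₂, h₁ ∈ H → h₂ ∈ H → h₁ * x * h₁⁻¹ ∈ S → h₂ * x * h₂⁻¹ ∈ S →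
        η (h₁ * x * h₁⁻¹) = η (h₂ * x * h₂⁻¹) := by
      intro x h₁ h₂ hh₁ hh₂ hx₁ hx₂
      have h1 : h₂ * x * h₂⁻¹ = (h₂ * h₁⁻¹) * (h₁ * x * h₁⁻¹) * (h₂ * h₁⁻¹)⁻¹ := by group
      rw [h1] at hx₂ ⊢
      obtain ⟨j, hj, hj'⟩ := hfus _ hx₁ _ (H.mul_mem hh₂ (H.inv_mem hh₁)) hx₂
      rw [hj', hη.2 j hj]
    have hch : ∀ x ∈ SCA p H R, ∃ h, h ∈ H ∧ h * x * h⁻¹ ∈ S := fun x hx => hx
    choose! κ hκ using hch
    refine ⟨fun x => if x ∈ SCA p H R then η (κ x * x * (κ x)⁻¹) else 0,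
      ⟨fun x hx => if_neg hx, fun h hh x => ?_⟩, ?_⟩
    · by_cases hx : x ∈ SCA p H R
      · have hx' := hSC h hh x hx
        simp only [hx, hx', if_true]
        have h1 := hκ _ hx'
        have h2 := hκ _ hx
        have h3 : κ (h * x * h⁻¹) * (h * x * h⁻¹) * (κ (h * x * h⁻¹))⁻¹ =
            (κ (h * x * h⁻¹) * h) * x * (κ (h * x * h⁻¹) * h)⁻¹ := by group
        have h4 := h1.2
        rw [h3] at h4 ⊢
        exact hval x _ _ (H.mul_mem h1.1 hh) h2.1 h4 h2.2
      · have hx' : h * x * h⁻¹ ∉ SCA p H R := fun h' => hx ((conj_mem_iff hSC hh x).1 h')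
        simp only [hx, hx', if_false]
    · funext x
      rw [res_apply]
      by_cases hx : x ∈ S
      · simp only [hx, hSSC hx, if_true]
        have h2 := hκ _ (hSSC hx)
        have h3 := hval x _ 1 h2.1 H.one_mem h2.2 (by simpa using hx)
        rw [h3, one_mul, inv_one, mul_one]
      · rw [if_neg hx, hη.1 x hx]
  · -- injectivity
    intro θ hθ h0
    funext x
    by_cases hx : x ∈ SCA p H R
    · obtain ⟨h, hh, hx'⟩ := hx
      have h1 := congrFun h0 (h * x * h⁻¹)
      rw [res_apply, if_pos hx', hθ.2 h hh] at h1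
      exact h1
    · exact hθ.1 x hx
  · -- the two operators
    intro θ hθ
    funext x
    rw [res_apply]
    show (if x ∈ S then Kfun z (SCA p H R) θ x else 0) =
      Kfun (cut z (Subgroup.centralizer (R : Set Γ))) S (res S θ) x
    by_cases hx : x ∈ S
    · simp only [Kfun, hx, hSSC hx, if_true]
      rw [← sub_eq_zero, ← finsum_sub_distrib (Set.toFinite _) (Set.toFinite _)]
      have hrx : ∀ r ∈ R, ∀ g, r * g * r⁻¹ * x = r * (g * x) * r⁻¹ := by
        intro r hr g
        calc r * g * r⁻¹ * x = r * g * (r⁻¹ * (x * r)) * r⁻¹ := by group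
          _ = r * g * (r⁻¹ * (r * x)) * r⁻¹ := by rw [hx.2.1 r hr]
          _ = r * (g * x) * r⁻¹ := by group
      refine sum_conj_eq_zero hR _ (fun r hr g => ?_) fun g hg => ?_
      · rw [hrx r hr, hzH r (hRH hr), hθ.2 r (hRH hr), hcutJ r (hRJ hr),
          res_conj hSJ (fun j hj => hθ.2 j (hJH hj)) (hRJ hr)]
      · have hgC : g ∈ Subgroup.centralizer (R : Set Γ) := by
          rw [Subgroup.mem_centralizer_iff]
          exact hg
        rw [res_apply, cut, if_pos hgC, ← mul_sub]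
        by_cases hz : z g = 0
        · rw [hz, zero_mul]
        · have hgH : g ∈ H := by
            by_contra h'
            exact hz (hsupp g h')
          by_cases hy : g * x ∈ S
          · rw [if_pos hy, sub_self, mul_zero]
          · rw [if_neg hy]
            have h1 : g * x ∉ SCA p H R := by
              intro h'
              refine hy (hback _ ?_ ?_ h')
              · exact H.mul_mem hgH (hJH hx.1)
              · intro r hr
                have h2 : Commute r (g * x) := Commute.mul_right (hg r hr) (hx.2.1 r hr)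
                exact h2
            rw [hθ.1 _ h1, sub_self, mul_zero]
    · simp only [Kfun, hx, if_false]

end Pool.Agent.Y748.NV
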